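import Mathlib

set_option autoImplicit false
open Filter Topology Metric Set Complex ComplexConjugate

namespace Pool.Agent.H.MP_39e9bb_an

theorem approx {a : ℝ} (ha : 0 < a) : ∃ h : ℂ → ℂ, Differentiable ℂ h ∧ h 0 = 0 ∧
    (∀ z, h (conj z) = conj (h z)) ∧
      ∀ z ∈ closedBall (a : ℂ) (a + 15 / 16), ‖z * exp (h z) - z * (1 + z)‖ ≤ 1 / 64 := by
  set q : ℝ := (a + 15 / 16) / (1 + a)
  have q0 : 0 ≤ q := by positivity
  have q1 : q < 1 := (div_lt_one (by positivity)).2 (by linarith)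
  set e : ℝ := 1 / (256 * (2 * a + 2) ^ 2) with he
  have e0 : 0 < e := by positivity
  have e1 : e * (256 * (2 * a + 2) ^ 2) = 1 := by rw [he]; field_simp
  obtain ⟨m, hm⟩ := exists_pow_lt_of_lt_one (show 0 < e * (1 - q) by nlinarith) q1
  have a1 : (1 + a : ℂ) ≠ 0 := by exact_mod_cast (by positivity : (1 + a : ℝ) ≠ 0)
  let u : ℂ → ℂ := fun z => (z - a) / (1 + a)
  have hu : ∀ z ∈ closedBall (a : ℂ) (a + 15 / 16), ‖u z‖ ≤ q := fun z hz => by
    rw [norm_div, show (1 + a : ℂ) = ((1 + a : ℝ) : ℂ) by simp, norm_real,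
      Real.norm_of_nonneg (by positivity)]
    exact div_le_div_of_nonneg_right (mem_closedBall_iff_norm.1 hz) (by positivity)
  have hE : ∀ z ∈ closedBall (a : ℂ) (a + 15 / 16),
      ‖log (1 + u z) - logTaylor (m + 1) (u z)‖ ≤ e ∧
        exp (logTaylor (m + 1) (u z)) = (1 + z) / (1 + a) *
          exp (-(log (1 + u z) - logTaylor (m + 1) (u z))) := fun z hz => by
    have h1 := hu z hz
    have h2 := h1.trans_lt q1
    constructor
    · refine (norm_log_sub_logTaylor_le m h2).trans ((div_le_self (by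
        have := sub_pos.2 h2; positivity) (by simp)).trans ?_)
      rw [← div_eq_mul_inv, div_le_iff₀ (sub_pos.2 h2)]
      have h3 : ‖u z‖ ^ (m + 1) ≤ q ^ m :=
        (pow_le_pow_of_le_one (norm_nonneg _) h2.le m.le_succ).trans (by gcongr)
      nlinarith
    · rw [neg_sub, exp_sub, exp_log (slitPlane_ne_zero (mem_slitPlane_of_norm_lt_one h2)),
        show (1 + z) / (1 + a) = 1 + u z by simp only [u]; field_simp; ring,
        mul_div_cancel₀ _ (slitPlane_ne_zero (mem_slitPlane_of_norm_lt_one h2))]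
  have m0 : (0 : ℂ) ∈ closedBall (a : ℂ) (a + 15 / 16) := by
    rw [mem_closedBall, dist_zero_left, norm_real, Real.norm_of_nonneg ha.le]; linarith
  have cj : ∀ z, logTaylor (m + 1) (u (conj z)) = conj (logTaylor (m + 1) (u z)) := fun z => by
    simp [logTaylor, u]
  refine ⟨fun z => logTaylor (m + 1) (u z) - logTaylor (m + 1) (u 0), ?_, sub_self _, fun z => ?_,
    fun z hz => ?_⟩
  · unfold logTaylor; fun_prop
  · simp only [map_sub, ← cj, map_zero]
  obtain ⟨b1, b2⟩ := hE z hz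
  obtain ⟨c1, c2⟩ := hE 0 m0
  have z1 : ‖z‖ ≤ 2 * a + 1 := by
    have := norm_le_norm_add_norm_sub' z a
    rw [norm_real, Real.norm_of_nonneg ha.le] at this
    linarith [mem_closedBall_iff_norm.1 hz]
  have z2 : ‖1 + z‖ ≤ 2 * a + 2 := by linarith [norm_add_le 1 z, norm_one (α := ℂ)]
  generalize log (1 + u z) - logTaylor (m + 1) (u z) = x at b1 b2
  generalize log (1 + u 0) - logTaylor (m + 1) (u 0) = y at c1 c2
  have h1 : ‖y - x‖ ≤ 2 * e := by linarith [norm_sub_le y x]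
  have h2 := norm_exp_sub_one_le (x := y - x) (by nlinarith)
  simp only
  rw [exp_sub, b2, c2, show z * ((1 + z) / (1 + a) * exp (-x) / ((1 + 0) / (1 + a) * exp (-y))) -
    z * (1 + z) = z * (1 + z) * (exp (y - x) - 1) by
      rw [exp_sub, exp_neg, exp_neg]; field_simp [exp_ne_zero]; ring, norm_mul, norm_mul]
  refine (mul_le_mul (mul_le_mul (z1.trans (show _ ≤ 2 * a + 2 by linarith)) z2 (norm_nonneg _)
    (by positivity)) (h2.trans (show _ ≤ 4 * e by linarith)) (norm_nonneg _) (by positivity)).trans ?_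
  nlinarith

theorem path {G : ℂ → ℂ} {A : ℝ} (hG : Differentiable ℂ G) (hc : ∀ z, G (conj z) = conj (G z))
    (hA : 1 ≤ A) (hb : ∀ z ∈ closedBall ((4 * A ^ 2 : ℝ) : ℂ) (4 * A ^ 2 + 15 / 16),
      ‖G z - z * (1 + z)‖ ≤ 1 / 64) {p : ℝ → ℂ} (hp : ContinuousOn p (Icc 0 1)) (p0 : p 0 = 0)
    {W : ℂ} {N : ℕ} (h : ∀ t ∈ Icc (0 : ℝ) 1, ‖p t‖ ≤ A ∧ G (p t) = ((t ^ N : ℝ) : ℂ) * W ∧
      deriv G (p t) ≠ 0) : ‖W‖ ≤ 3 * A ^ 2 ∧ (W.im = 0 → -1 < W.re) := by
  have K : ∀ z : ℂ, ‖z‖ ≤ A → -(3 / 4) ≤ z.re →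
      z ∈ closedBall ((4 * A ^ 2 : ℝ) : ℂ) (4 * A ^ 2 + 7 / 8) := fun z h1 h2 => by
    rw [mem_closedBall_iff_norm]
    refine (pow_le_pow_iff_left₀ (norm_nonneg _) (by positivity) two_ne_zero).1 ?_
    have := pow_le_pow_left₀ (norm_nonneg _) h1 2
    rw [Complex.sq_norm, normSq_apply] at this ⊢
    simp only [sub_re, ofReal_re, sub_im, ofReal_im]
    nlinarith
  have K' := fun z h1 h2 => hb z (closedBall_subset_closedBall (by linarith) (K z h1 h2))
  have hD : Differentiable ℂ fun z => G z - z * (1 + z) := by fun_prop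
  have re : ∀ x : ℝ, (G x).im = 0 := fun x => conj_eq_iff_im.1 (by rw [← hc, conj_ofReal])
  have hi : ∀ z : ℂ, ‖z‖ ≤ A → -(3 / 4) ≤ z.re → |(G z).im - z.im * (1 + 2 * z.re)| ≤ |z.im| / 4 := by
    intro z h1 h2
    have h3 := (convex_closedBall ((4 * A ^ 2 : ℝ) : ℂ) (4 * A ^ 2 + 7 / 8)).norm_image_sub_le_of_norm_deriv_le
      (fun y _ => hD y) (C := 1 / 64 / (1 / 16)) (fun y hy =>
        norm_deriv_le_of_forall_mem_sphere_norm_le (by norm_num) hD.diffContOnCl fun v hv =>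
          hb v ((dist_triangle v y _).trans (by linarith [mem_closedBall.1 hy, mem_sphere.1 hv])))
      (K z.re ((norm_real z.re).le.trans ((abs_re_le_norm z).trans h1)) h2) (K z h1 h2)
    have h4 := (abs_im_le_norm _).trans h3
    rw [show z - z.re = z.im * I by simp [Complex.ext_iff], norm_mul, norm_I, norm_real,
      Real.norm_eq_abs] at h4
    refine le_trans (le_of_eq ?_) (h4.trans (le_of_eq (by ring)))
    congr 1
    simp [re]; ring
  have cr : ContinuousOn (fun t => (p t).re) (Icc 0 1) := continuous_re.comp_continuousOn hp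
  have hr : W.im = 0 → ∀ t ∈ Icc (0 : ℝ) 1, conj (p t) = p t := fun e => by
    refine IsClosed.Icc_subset_of_forall_mem_nhdsWithin (s := {t | conj (p t) = p t}) ?_
      (by simp [p0]) fun t ht => ?_
    · rw [inter_comm]
      exact isClosed_Icc.isClosed_eq (continuous_conj.comp_continuousOn hp) hp
    have t1 := Ico_subset_Icc_self ht.2
    have h1 := ((hG.analyticAt (p t)).hasStrictDerivAt).eventually_left_inverse (h t t1).2.2
    have h2 : Tendsto p (𝓝[>] t) (𝓝 (p t)) := (hp t t1).mono_of_mem_nhdsWithin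
      (mem_of_superset (Icc_mem_nhdsGT ht.2.2) (Icc_subset_Icc_left ht.2.1))
    have h3 := (continuous_conj.tendsto _).comp h2
    rw [show conj (p t) = p t from ht.1] at h3
    filter_upwards [h2.eventually h1, h3.eventually h1, Icc_mem_nhdsGT ht.2.2] with s s1 s2 s3
    rw [Function.comp, hc, (h s ⟨ht.2.1.trans s3.1, s3.2⟩).2.1, conj_eq_iff_im.2 (by simp [e, -ofReal_pow]),
      ← (h s ⟨ht.2.1.trans s3.1, s3.2⟩).2.1, s1] at s2
    exact s2.symm
  have rl : ∀ t ∈ Icc (0 : ℝ) 1, W.im = 0 → -(3 / 4) ≤ (p t).re →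
      |t ^ N * W.re - (p t).re * (1 + (p t).re)| ≤ 1 / 64 := fun t ht e l => by
    have := (abs_re_le_norm _).trans (K' _ (h t ht).1 l)
    rw [(h t ht).2.1] at this
    simpa [conj_eq_iff_im.1 (hr e t ht), -ofReal_pow] using this
  have iv : ∀ T ∈ Icc (0 : ℝ) 1, ∀ x ≤ 0, (p T).re ≤ x → ∃ t ∈ Icc 0 T, (p t).re = x :=
    fun T hT x x0 l => intermediate_value_Icc' hT.1 (cr.mono (Icc_subset_Icc_right hT.2))
      ⟨l, by simpa [p0] using x0⟩
  have key : -(3 / 4) ≤ (p 1).re := by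
    by_contra l
    obtain ⟨T, hT, e⟩ := iv 1 ⟨zero_le_one, le_rfl⟩ _ (by norm_num) (not_le.1 l).le
    by_cases w : W.im = 0
    · obtain ⟨t, ht, e'⟩ := iv T hT (-(1 / 2)) (by norm_num) (by linarith)
      have h1 := abs_le.1 (rl T hT w e.ge)
      have h2 := abs_le.1 (rl t ⟨ht.1, ht.2.trans hT.2⟩ w (by linarith))
      rw [e] at h1
      rw [e'] at h2
      have h3 := pow_le_pow_left₀ ht.1 ht.2 N
      have h4 := pow_nonneg ht.1 N
      rcases le_total 0 W.re with k | k <;> nlinarith [h1.1, h2.2]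
    obtain ⟨t, ht, e'⟩ := iv T hT (-(1 / 4)) (by norm_num) (by linarith)
    have t1 : t ∈ Icc (0 : ℝ) 1 := ⟨ht.1, ht.2.trans hT.2⟩
    have t0 : 0 < t := ht.1.lt_of_ne (by rintro rfl; simp [p0] at e')
    have im : ∀ s ∈ Icc t T, (G (p s)).im = s ^ N * W.im ∧ (p s).im ≠ 0 := fun s hs => by
      have : (G (p s)).im = s ^ N * W.im := by
        rw [(h s ⟨ht.1.trans hs.1, hs.2.trans hT.2⟩).2.1]; simp [-ofReal_pow]
      refine ⟨this, fun k => mul_ne_zero (pow_pos (t0.trans_le hs.1) N).ne' w ?_⟩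
      rw [← this, ← conj_eq_iff_re.1 (conj_eq_iff_im.2 k), re]
    have h1 := hi _ (h t t1).1 (by linarith)
    have h2 := hi _ (h T hT).1 e.ge
    rw [(im t ⟨le_rfl, ht.2⟩).1, e'] at h1
    rw [(im T ⟨ht.2, le_rfl⟩).1, e] at h2
    have h3 := pow_pos t0 N
    have h4 := pow_pos (t0.trans_le ht.2) N
    have h5 : ¬ (0 ∈ uIcc (p t).im (p T).im) := fun k => by
      obtain ⟨s, s1, s2⟩ := intermediate_value_uIcc (a := t) (b := T) (f := fun s => (p s).im)
        ((continuous_im.comp_continuousOn hp).mono (by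
          rw [uIcc_of_le ht.2]; exact Icc_subset_Icc ht.1 hT.2)) k
      rw [uIcc_of_le ht.2] at s1
      exact (im s s1).2 s2
    rw [mem_uIcc] at h5
    push Not at h5
    rw [abs_le] at h1 h2
    rcases le_total (p t).im 0 with k | k
    · have k' := h5.1 k
      rw [abs_of_nonpos k] at h1
      rw [abs_of_neg k'] at h2
      have : 0 < W.im := (mul_pos_iff_of_pos_left h4).1 (by nlinarith [h2.1])
      have := h5.2 k'.le
      nlinarith [h1.2]
    · have k' : 0 < (p T).im := lt_of_not_ge fun j => (h5.2 j).not_ge k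
      rw [abs_of_nonneg k] at h1
      rw [abs_of_pos k'] at h2
      have : W.im < 0 := neg_of_mul_neg_right (show T ^ N * W.im < 0 by nlinarith [h2.2]) h4.le
      nlinarith [h1.1]
  have m1 : (1 : ℝ) ∈ Icc (0 : ℝ) 1 := ⟨zero_le_one, le_rfl⟩
  refine ⟨?_, fun e => by
    have := (abs_le.1 (rl 1 m1 e key)).1
    rw [one_pow] at this
    nlinarith [sq_nonneg ((p 1).re + 1 / 2)]⟩
  have h1 := K' _ (h 1 m1).1 key
  rw [(h 1 m1).2.1, one_pow, ofReal_one, one_mul] at h1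
  have h2 := norm_le_norm_add_norm_sub' W (p 1 * (1 + p 1))
  have h3 := norm_add_le 1 (p 1)
  rw [norm_mul] at h2
  rw [norm_one] at h3
  nlinarith [(h 1 m1).1, norm_nonneg (p 1), norm_nonneg (1 + p 1)]

theorem final {B : ℝ} (hB : 0 < B) : ∃ f : ℂ → ℂ, Differentiable ℂ f ∧ f 0 = 0 ∧ deriv f 0 = 1 ∧
    ∀ c : ℂ, ¬ ball c B ⊆ {w : ℂ | ∃ γ : ℝ → ℂ, ContinuousOn γ (Icc (0 : ℝ) 1) ∧ γ 0 = 0 ∧
      ∀ t ∈ Icc (0 : ℝ) 1, γ t ∈ ball (0 : ℂ) 1 ∧ f (γ t) = (t : ℂ) * w ∧ deriv f (γ t) ≠ 0} := by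
  obtain ⟨r, r0, r1, r2⟩ : ∃ r : ℝ, 0 < r ∧ r ≤ 1 ∧ r ≤ B / 2 :=
    ⟨min 1 (B / 2), by positivity, min_le_left _ _, min_le_right _ _⟩
  obtain ⟨n, hn⟩ := exists_nat_gt (8 * (3 / r) / B)
  obtain ⟨N, rfl⟩ : ∃ N, n = N + 1 := ⟨n - 1, by
    have : 0 < n := by exact_mod_cast (lt_trans (by positivity) hn : (0 : ℝ) < n)
    omega⟩
  have N0 : ((N + 1 : ℕ) : ℂ) ≠ 0 := by exact_mod_cast N.succ_ne_zero
  have rc : (r : ℂ) ≠ 0 := by exact_mod_cast r0.ne'
  have A1 : 1 ≤ (1 / r) ^ (N + 1) := one_le_pow₀ (one_le_one_div r0 r1)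
  obtain ⟨h, h1, h2, h3, h4⟩ := approx (a := 4 * ((1 / r) ^ (N + 1)) ^ 2) (by positivity)
  set f : ℂ → ℂ := fun z => z * exp (h ((z / r) ^ (N + 1)) / (N + 1 : ℕ)) with hf
  set G : ℂ → ℂ := fun z => z * exp (h z) with hG
  have df : Differentiable ℂ f := by fun_prop
  have dG : Differentiable ℂ G := by fun_prop
  have e : ∀ z, G ((z / r) ^ (N + 1)) = (f z / r) ^ (N + 1) := fun z => by
    simp only [hf, hG]
    rw [mul_div_right_comm, mul_pow, ← exp_nat_mul, mul_div_cancel₀ _ N0]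
  have d0 : ∀ g : ℂ → ℂ, Differentiable ℂ g → g 0 = 0 → deriv (fun z => z * exp (g z)) 0 = 1 :=
    fun g g1 g2 => by simpa [g2] using ((hasDerivAt_id' 0).fun_mul (g1 0).hasDerivAt.cexp).deriv
  refine ⟨f, df, by simp [hf], d0 _ (by fun_prop) (by simp [h2]), fun c hc => ?_⟩
  have key : ∀ w ∈ ball c B, ‖w‖ ≤ 3 / r ∧
      (((w / r) ^ (N + 1)).im = 0 → -1 < ((w / r) ^ (N + 1)).re) := fun w hw => by
    obtain ⟨γ, g1, g2, g3⟩ := hc hw
    have := path dG (fun z => by simp [hG, h3, exp_conj]) A1 h4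
      (p := fun t => (γ t / r) ^ (N + 1)) ((g1.div_const _).pow _) (by simp [g2])
      (W := (w / r) ^ (N + 1)) (N := N + 1) fun t ht => ⟨by
        rw [norm_pow, norm_div, norm_real, Real.norm_of_nonneg r0.le]
        gcongr
        exact (mem_ball_zero_iff.1 (g3 t ht).1).le, by
        rw [e, (g3 t ht).2.1, mul_div_assoc, mul_pow, ofReal_pow], fun k => by
        have b1 := (dG _).hasDerivAt.comp (γ t) (((hasDerivAt_id (γ t)).div_const (r : ℂ)).pow (N + 1))
        have b2 := (((df (γ t)).hasDerivAt.div_const (r : ℂ)).pow (N + 1)).unique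
          (b1.congr_of_eventuallyEq (Eventually.of_forall fun z => (e z).symm))
        rw [Pi.pow_apply, id, k, zero_mul] at b2
        have b3 := pow_eq_zero_iff'.1 ((mul_eq_zero.1 ((mul_eq_zero.1 b2).resolve_right
          (div_ne_zero (g3 t ht).2.2 rc))).resolve_left N0)
        have b4 := (mul_eq_zero.1 ((div_eq_zero_iff.1 b3.1).resolve_right rc)).resolve_right
          (exp_ne_zero _)
        simp only [b4, zero_div, zero_pow N.succ_ne_zero] at k
        exact one_ne_zero ((d0 h h1 h2).symm.trans k)⟩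
    refine ⟨?_, this.2⟩
    have b1 := this.1
    rw [norm_pow, norm_div, norm_real, Real.norm_of_nonneg r0.le] at b1
    have b2 : (‖w‖ / r) ^ (N + 1) ≤ (3 * (1 / r) ^ 2) ^ (N + 1) := by
      rw [mul_pow, ← pow_mul, mul_comm 2, pow_mul]
      exact b1.trans (mul_le_mul_of_nonneg_right (le_self_pow₀ (by norm_num) N.succ_ne_zero)
        (by positivity))
    rw [pow_le_pow_iff_left₀ (by positivity) (by positivity) N.succ_ne_zero, div_le_iff₀ r0] at b2
    exact b2.trans (le_of_eq (by field_simp))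
  set s := ‖c‖ + B / 2 with hs
  have s0 : 0 < s := by positivity
  have w1 : ∀ x : ℝ, s * |x| < B / 2 → (s : ℂ) * exp (I * (arg c + x : ℝ)) ∈ ball c B ∧
      ‖(s : ℂ) * exp (I * (arg c + x : ℝ))‖ = s := fun x hx => by
    refine ⟨mem_ball_iff_norm.2 ?_, by
      rw [norm_mul, norm_exp_I_mul_ofReal, norm_real, Real.norm_of_nonneg s0.le, mul_one]⟩
    have b1 := Real.norm_exp_I_mul_ofReal_sub_one_le (x := x)
    rw [show (s : ℂ) * exp (I * (arg c + x : ℝ)) - c = exp (I * (arg c : ℝ)) *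
      (s * (exp (I * x) - 1) + (B / 2 : ℝ)) by
        nth_rw 2 [← norm_mul_exp_arg_mul_I c]
        rw [hs, ofReal_add, ofReal_add, mul_add I, exp_add, mul_comm I (arg c)]; ring,
      norm_mul, norm_exp_I_mul_ofReal, one_mul]
    refine (norm_add_le _ _).trans_lt ?_
    rw [norm_mul, norm_real, norm_real, Real.norm_of_nonneg s0.le, Real.norm_of_nonneg (by positivity)]
    rw [Real.norm_eq_abs] at b1
    nlinarith
  have s1 : s ≤ 3 / r := (w1 0 (by simpa using hB)).2 ▸ (key _ (w1 0 (by simpa using hB)).1).1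
  have p := Real.pi_pos
  have n0 : (0 : ℝ) < (N + 1 : ℕ) := by positivity
  set y := ((N + 1 : ℕ) * arg c - Real.pi) / (2 * Real.pi) with hy
  set x := (round y - y) * (2 * Real.pi) / (N + 1 : ℕ) with hx
  have x1 : s * |x| < B / 2 := by
    rw [hx, abs_div, abs_mul, abs_sub_comm, abs_of_pos n0, abs_of_pos (by positivity : 0 < 2 * Real.pi),
      mul_div_assoc', div_lt_iff₀ n0]
    rw [div_lt_iff₀ hB] at hn
    have : |y - round y| * (2 * Real.pi) ≤ 4 := by
      nlinarith [abs_sub_round y, Real.pi_lt_four]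
    nlinarith
  have x2 : ((s : ℂ) * exp (I * (arg c + x : ℝ)) / r) ^ (N + 1) = ((-(s / r) ^ (N + 1) : ℝ) : ℂ) := by
    have : ((N + 1 : ℕ) : ℝ) * (arg c + x) = Real.pi + round y * (2 * Real.pi) := by
      rw [hx, hy]; field_simp; ring
    rw [mul_div_right_comm, mul_pow, ← exp_nat_mul, mul_left_comm, ← ofReal_natCast, ← ofReal_mul,
      this]
    push_cast
    rw [mul_add, exp_add, mul_comm I, exp_pi_mul_I, mul_comm I, mul_assoc, exp_int_mul_two_pi_mul_I]
    ring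
  have x3 := (key _ (w1 x x1).1).2
  rw [x2, ofReal_im, ofReal_re] at x3
  have : 1 ≤ (s / r) ^ (N + 1) := one_le_pow₀ ((one_le_div r0).2 (by linarith [norm_nonneg c]))
  linarith [x3 rfl]

end Pool.Agent.H.MP_39e9bb_an
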